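import Pool.Agent.Lib.MP_4fbe7c_an.WN.H18.Low

/-!
Project WN, module UPP (helper40): upper bound of the functional near the steady state.
-/

set_option autoImplicit false

open Set MeasureTheory

namespace Pool.Agent.Lib.MP_4fbe7c_an.WN.H40

open Pool.Agent.Lib.MP_4fbe7c_an.UL Pool.Agent.Lib.MP_4fbe7c_an.ND
  Pool.Agent.Lib.MP_4fbe7c_an.WN

/-- `Φ(r) - 3/2 ≤ |1 - r|` for `r ≥ 1/2`. -/
theorem Ph_le {r : ℝ} (hr : 1 / 2 ≤ r) : Ph r - 3 / 2 ≤ |1 - r| := by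
  unfold Ph
  split_ifs with h
  · have h0 : 0 < r := by linarith
    rw [abs_of_pos (by linarith)]
    have h1 := Real.one_sub_inv_le_log_of_pos h0
    have h2 : 2 * r - (1 - r⁻¹) - r ^ 2 / 2 - 3 / 2 - (1 - r) =
        (r - 1) * (-(r ^ 2) / 2 + 5 / 2 * r - 1) / r := by
      field_simp
      ring
    have h3 : (r - 1) * (-(r ^ 2) / 2 + 5 / 2 * r - 1) / r ≤ 0 := by
      apply div_nonpos_of_nonpos_of_nonneg _ h0.le
      apply mul_nonpos_of_nonpos_of_nonneg (by linarith)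
      nlinarith
    linarith
  · rw [sub_self]
    exact abs_nonneg _

theorem hw_le {R : ℝ} (hR : 0 ≤ R) : hw R ≤ hw 0 := by
  unfold hw
  have h1 : Real.exp (4 - 4 * R) ≤ Real.exp (4 - 4 * 0) := Real.exp_le_exp.mpr (by linarith)
  exact div_le_div_of_nonneg_right (add_le_add_right h1 1) zero_le_two

theorem Nq_le {n : ℕ} {K : ℝ} {κ : ℕ → ℝ} (h : Kap n K κ) {a b : ℝ} (hb : 0 ≤ b)
    {r : ℕ → ℝ} (hr : ∀ i, i ≤ n → 0 ≤ r i) :
    Nq n κ a b r ≤ (a + b * ∑ k ∈ Finset.Ico 2 (n + 1), al κ k) * qv n r 1 ^ 2 := by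
  unfold Nq
  have h1 : ∑ k ∈ Finset.Ico 2 (n + 1), al κ k * qv n r k ^ 2 ≤
      (∑ k ∈ Finset.Ico 2 (n + 1), al κ k) * qv n r 1 ^ 2 := by
    rw [Finset.sum_mul]
    refine Finset.sum_le_sum fun k hk => ?_
    obtain ⟨h2, h3⟩ := Finset.mem_Ico.mp hk
    apply mul_le_mul_of_nonneg_left _ (al_nonneg h h2 (by omega))
    exact pow_le_pow_left₀ (qv_nonneg hr) (qv_anti hr (by omega)) 2
  have h2 := mul_le_mul_of_nonneg_left h1 hb
  linarith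

theorem qv_le {n : ℕ} {r : ℕ → ℝ} {c : ℝ} (hr : ∀ i, 1 ≤ i → i ≤ n → r i ≤ c) :
    qv n r 1 ≤ n * c := by
  unfold qv
  refine (Finset.sum_le_sum (g := fun _ => c) fun i hi => ?_).trans ?_
  · obtain ⟨h1, h2⟩ := Finset.mem_Ico.mp hi
    exact hr i h1 (by omega)
  · rw [Finset.sum_const, Nat.card_Ico, nsmul_eq_mul, Nat.add_sub_cancel]

/-- UPP. -/
theorem upp_st (hPhi : PhiStatement) : UppWStatement := by
  intro p Ω q m θ θ' θ'' n ρ η hΩ hW hθ hη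
  obtain ⟨l, B, hl, hlB, hb⟩ := stdy_bounds hΩ hθ
  have hB : 0 < B := lt_of_lt_of_le hl hlB
  have hK := hW.kap
  have ha := (wa_pos hK.nn).le
  have hbn := wb_nonneg (Kr ρ)
  obtain ⟨A, hA⟩ : ∃ A : ℝ, A = wa (Kr ρ) + wb (Kr ρ) *
    ∑ k ∈ Finset.Ico 2 (n + 1), al (kr ρ) k := ⟨_, rfl⟩
  have hA0 : 0 ≤ A := by
    rw [hA]
    have : 0 ≤ ∑ k ∈ Finset.Ico 2 (n + 1), al (kr ρ) k :=
      Finset.sum_nonneg fun k hk => by
        obtain ⟨h2, h3⟩ := Finset.mem_Ico.mp hk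
        exact al_nonneg hK h2 (by omega)
    positivity
  have hH : 0 < hw 0 := hw_pos 0
  obtain ⟨C, hC⟩ : ∃ C : ℝ, C = B ^ 2 * (1 / l + (n / l) ^ 2 * (1 / 2 + hw 0 / 2 * A)) :=
    ⟨_, rfl⟩
  have hC0 : 0 < C := by
    rw [hC]
    positivity
  obtain ⟨Vv, hVv⟩ : ∃ Vv : ℝ, Vv = volume.real Ω := ⟨_, rfl⟩
  have hV0 : 0 < Vv := by
    rw [hVv]
    exact hΩ.volume_real_pos
  refine ⟨min (min 1 (l / 2)) (η / (2 * (C * Vv))), lt_min (lt_min one_pos (by positivity))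
    (by positivity), ?_⟩
  obtain ⟨δ, hδ⟩ : ∃ δ : ℝ, δ = min (min 1 (l / 2)) (η / (2 * (C * Vv))) := ⟨_, rfl⟩
  rw [← hδ]
  have hδ0 : 0 < δ := by
    rw [hδ]
    exact lt_min (lt_min one_pos (by positivity)) (by positivity)
  have hδ1 : δ ≤ 1 := by
    rw [hδ]
    exact (min_le_left _ _).trans (min_le_left _ _)
  have hδ2 : δ ≤ l / 2 := by
    rw [hδ]
    exact (min_le_left _ _).trans (min_le_right _ _)
  have hδ3 : C * δ * Vv < η := by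
    have h1 : δ ≤ η / (2 * (C * Vv)) := by
      rw [hδ]
      exact min_le_right _ _
    rw [le_div_iff₀ (by positivity)] at h1
    nlinarith
  intro f hf hfd
  have cθ : ContinuousOn θ (closure Ω) := hθ.c2.toC1.c0
  have cf : ∀ i, i ≤ n → ContinuousOn (fun x => f i x / θ x) (closure Ω) := fun i hi =>
    (hf i hi).1.div cθ fun x hx => (hθ.pos x hx).ne'
  have p0 : ∀ x ∈ closure Ω, 0 < f 0 x / θ x := fun x hx =>
    div_pos ((hf 0 (Nat.zero_le n)).2 x hx) (hθ.pos x hx)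
  have c1 : ContinuousOn (fun x => θ x ^ 2 * (3 / 2 : ℝ)) (closure Ω) :=
    (cθ.pow 2).mul continuousOn_const
  have c2 : ContinuousOn (fun x => θ x ^ 2 * Fh n (kr ρ) (wa (Kr ρ)) (wb (Kr ρ))
      (fun i => f i x / θ x)) (closure Ω) :=
    (cθ.pow 2).mul (H18.cont_Fh hPhi (r := fun i x => f i x / θ x) (kr ρ) _ _ cf p0)
  -- the pointwise inequality
  have key : ∀ x ∈ closure Ω, θ x ^ 2 * Fh n (kr ρ) (wa (Kr ρ)) (wb (Kr ρ))
      (fun i => f i x / θ x) - θ x ^ 2 * (3 / 2) ≤ C * δ := by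
    intro x hx
    obtain ⟨hx0, hxi⟩ := hfd x hx
    obtain ⟨hxl, hxB⟩ := hb x hx
    have hθx := hθ.pos x hx
    obtain ⟨r, hr⟩ : ∃ r : ℕ → ℝ, r = fun i => f i x / θ x := ⟨_, rfl⟩
    rw [← hr]
    have hrp : ∀ i, i ≤ n → 0 < r i := fun i hi => by
      rw [hr]
      exact div_pos ((hf i hi).2 x hx) hθx
    have hr0 : |1 - r 0| ≤ δ / l := by
      have e : 1 - r 0 = -((f 0 x - θ x) / θ x) := by
        rw [hr]
        field_simp
        ring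
      rw [e, abs_neg, abs_div, abs_of_pos hθx]
      exact div_le_div₀ hδ0.le hx0.le hl hxl
    have hr0' : 1 / 2 ≤ r 0 := by
      have h1 : δ / l ≤ 1 / 2 := by
        rw [div_le_iff₀ hl]
        linarith
      have h2 := (le_abs_self (1 - r 0)).trans (hr0.trans h1)
      linarith
    have hv : qv n r 1 ≤ n * (δ / l) := qv_le fun i hi1 hin => by
      rw [hr]
      exact div_le_div₀ hδ0.le (hxi i hi1 hin).le hl hxl
    have hv0 : 0 ≤ qv n r 1 := qv_nonneg fun i hi => (hrp i hi).le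
    have hR0 : 0 ≤ qv n r 0 := qv_nonneg fun i hi => (hrp i hi).le
    have h1 := Ph_le hr0'
    have h2 := hw_le hR0
    have h3 := Nq_le hK (a := wa (Kr ρ)) hbn (r := r) fun i hi => (hrp i hi).le
    rw [← hA] at h3
    have h4 : qv n r 1 ^ 2 ≤ (n / l) ^ 2 * δ := by
      have h5 : qv n r 1 ^ 2 ≤ (n * (δ / l)) ^ 2 := pow_le_pow_left₀ hv0 hv 2
      have h6 : (n * (δ / l)) ^ 2 = (n / l) ^ 2 * (δ * δ) := by ring
      have h7 : (n / l : ℝ) ^ 2 * (δ * δ) ≤ (n / l) ^ 2 * δ := by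
        apply mul_le_mul_of_nonneg_left _ (sq_nonneg _)
        nlinarith
      linarith
    have h5 : hw (qv n r 0) / 2 * Nq n (kr ρ) (wa (Kr ρ)) (wb (Kr ρ)) r ≤
        hw 0 / 2 * (A * ((n / l) ^ 2 * δ)) := by
      have h6 := Nq_nonneg hK ha hbn r
      have h7 : Nq n (kr ρ) (wa (Kr ρ)) (wb (Kr ρ)) r ≤ A * ((n / l) ^ 2 * δ) :=
        h3.trans (mul_le_mul_of_nonneg_left h4 hA0)
      exact mul_le_mul (by linarith) h7 h6 (by positivity)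
    have h6 : Fh n (kr ρ) (wa (Kr ρ)) (wb (Kr ρ)) r - 3 / 2 ≤
        (1 / l + (n / l) ^ 2 * (1 / 2 + hw 0 / 2 * A)) * δ := by
      unfold Fh
      have e : (1 / l + (n / l) ^ 2 * (1 / 2 + hw 0 / 2 * A)) * δ =
          δ / l + (n / l) ^ 2 * δ / 2 + hw 0 / 2 * (A * ((n / l) ^ 2 * δ)) := by ring
      rw [e]
      linarith
    have h7 : θ x ^ 2 ≤ B ^ 2 := pow_le_pow_left₀ hθx.le hxB 2
    have h8 : 0 ≤ (1 / l + (n / l) ^ 2 * (1 / 2 + hw 0 / 2 * A)) * δ := by positivity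
    calc θ x ^ 2 * Fh n (kr ρ) (wa (Kr ρ)) (wb (Kr ρ)) r - θ x ^ 2 * (3 / 2)
        = θ x ^ 2 * (Fh n (kr ρ) (wa (Kr ρ)) (wb (Kr ρ)) r - 3 / 2) := by ring
      _ ≤ θ x ^ 2 * ((1 / l + (n / l) ^ 2 * (1 / 2 + hw 0 / 2 * A)) * δ) :=
          mul_le_mul_of_nonneg_left h6 (sq_nonneg _)
      _ ≤ B ^ 2 * ((1 / l + (n / l) ^ 2 * (1 / 2 + hw 0 / 2 * A)) * δ) :=
          mul_le_mul_of_nonneg_right h7 h8
      _ = C * δ := by rw [hC]; ring
  have g1 : ∫ x in Ω, (θ x ^ 2 * Fh n (kr ρ) (wa (Kr ρ)) (wb (Kr ρ))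
      (fun i => f i x / θ x) - θ x ^ 2 * (3 / 2)) ≤ ∫ x in Ω, (fun _ => C * δ) x := by
    refine setIntegral_mono_on (hΩ.integrableOn (c2.sub c1))
      (hΩ.integrableOn continuousOn_const) hΩ.measurableSet ?_
    intro x hx
    exact key x (subset_closure hx)
  have g2 : ∫ x in Ω, (θ x ^ 2 * Fh n (kr ρ) (wa (Kr ρ)) (wb (Kr ρ))
      (fun i => f i x / θ x) - θ x ^ 2 * (3 / 2)) = FuW Ω n ρ θ f - FuWE Ω θ := by
    rw [integral_sub (hΩ.integrableOn c2) (hΩ.integrableOn c1)]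
    rfl
  have g3 : ∫ x in Ω, (fun _ => C * δ) x = C * δ * Vv := by
    rw [hVv]
    simp [mul_comm]
  rw [g2, g3] at g1
  linarith

end Pool.Agent.Lib.MP_4fbe7c_an.WN.H40
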